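import Pool.Agent.H90.STE.Stmts

/-!
# Sticky families with a random time: module ET (the theorem)
-/

set_option autoImplicit false

namespace Pool.STE

open Finset Real
open Pool.Agent.H49.Ent Pool.Agent.H32.Dense Pool.STK Pool.KA

namespace EtAux

theorem goodT_mono {m J : ℕ} {a R R' ε θ : ℝ} (h : GoodT m a R ε θ J) (hR : R ≤ R') :
    GoodT m a R' ε θ J := by
  intro F hT hS
  refine (h F hT hS).trans ?_
  have h1 : R * (J : ℝ) ≤ R' * J := mul_le_mul_of_nonneg_right hR (Nat.cast_nonneg J)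
  linarith

theorem goodE_mono {m : ℕ} {a R R' : ℝ} (h : GoodE m a R) (hR : R ≤ R') : GoodE m a R' := by
  obtain ⟨ε, hε, θ, hθ, J₀, hJ⟩ := h
  exact ⟨ε, hε, θ, hθ, J₀, fun J hJJ => goodT_mono (hJ J hJJ) hR⟩

theorem log_small (C r : ℝ) (N : ℕ) (hC : 0 ≤ C) (hr : 0 < r) (hN : 1 ≤ N) :
    ∃ k₀ : ℕ, ∀ k : ℕ, k₀ ≤ k → C * (1 + Real.log (N * k + 2)) ≤ r * k := by
  have hNr : (1 : ℝ) ≤ N := by exact_mod_cast hN
  set δ : ℝ := r / (2 * (C + 1)) with hδ
  have hδ0 : 0 < δ := by positivity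
  have hCδ : C * δ ≤ r / 2 := by
    rw [hδ, mul_div_assoc', div_le_div_iff₀ (by positivity) (by norm_num)]
    nlinarith
  obtain ⟨k₀, hk₀⟩ := exists_nat_ge (C * (Real.log (3 * N) - Real.log δ) / (r / 2))
  refine ⟨k₀ + 1, ?_⟩
  intro k hk
  have hk1 : 1 ≤ k := by omega
  have hkr : (1 : ℝ) ≤ k := by exact_mod_cast hk1
  have hk2 : (k₀ : ℝ) ≤ k := by exact_mod_cast (by omega : k₀ ≤ k)
  have h1 : C * (Real.log (3 * N) - Real.log δ) ≤ r / 2 * k := by
    have h2 := hk₀.trans hk2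
    rw [div_le_iff₀ (by linarith)] at h2
    linarith
  have h2 : Real.log (N * k + 2) ≤ Real.log (3 * N) + Real.log k := by
    rw [← Real.log_mul (by positivity) (by positivity)]
    apply Real.log_le_log (by positivity)
    nlinarith
  have h3 : Real.log k ≤ δ * k - 1 - Real.log δ := by
    have h4 := Real.log_le_sub_one_of_pos (show 0 < δ * k by positivity)
    rw [Real.log_mul (by positivity) (by positivity)] at h4
    linarith
  have h4 : C * (1 + Real.log (N * k + 2)) ≤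
      C * ((Real.log (3 * N) - Real.log δ) + δ * k) :=
    mul_le_mul_of_nonneg_left (by linarith) hC
  have h5 : C * δ * k ≤ r / 2 * k := mul_le_mul_of_nonneg_right hCδ (by positivity)
  linarith

/-- a small constant -/
theorem frac_small (C r : ℝ) (hC : 0 ≤ C) (hr : 0 < r) : C * (r / (C + 1)) ≤ r := by
  rw [mul_div_assoc', div_le_iff₀ (by positivity)]
  nlinarith

end EtAux

open EtAux

theorem et (hCT : CTStmt) (hBN : BNStmt) (hRD : RDStmt) (hTV : TVStmt) : ETStmt := by
  intro m a R₀ ha hR₀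
  by_contra hcon
  have hlow : ∀ R, GoodE m a R → R₀ ≤ R := by
    intro R hR
    by_contra h
    exact hcon (goodE_mono hR (not_le.1 h).le)
  have hne : {R | GoodE m a R}.Nonempty := ⟨_, hTV m a (by linarith)⟩
  have hbdd : BddBelow {R | GoodE m a R} := ⟨R₀, fun R hR => hlow R hR⟩
  have hpos : 0 < sInf {R | GoodE m a R} :=
    lt_of_lt_of_le hR₀ (le_csInf hne fun R hR => hlow R hR)
  have habove : ∀ R', sInf {R | GoodE m a R} < R' → GoodE m a R' := by
    intro R' hR'
    obtain ⟨s, hs, hs'⟩ := exists_lt_of_csInf_lt hne hR'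
    exact goodE_mono hs hs'.le
  have hbelow : ∀ R', R' < sInf {R | GoodE m a R} → ¬ GoodE m a R' := fun R' hR' hg =>
    absurd (csInf_le hbdd hg) (not_le.2 hR')
  revert hpos habove hbelow
  generalize sInf {R | GoodE m a R} = R
  intro hpos habove hbelow
  -- parameters
  have ha0 : 0 < a := by linarith
  obtain ⟨n, hn, hn2⟩ := hBN.2.2 a ha
  obtain ⟨C, hC0, k₁, hC⟩ := hCT m n a (R / (4 * a)) hn ha (by positivity) hn2
  set η : ℝ := R / 16 / (C + 1) with hη
  have hη0 : 0 < η := by positivity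
  have hCη : C * η ≤ R / 16 := frac_small C (R / 16) hC0 (by positivity)
  obtain ⟨ε₁, hε₁, θ₁, hθ₁, J₁, hJ₁⟩ := habove (R + η) (by linarith)
  have hm : (0 : ℝ) ≤ m := Nat.cast_nonneg m
  have hl2 : 0 < Real.log 2 := Real.log_pos (by norm_num)
  obtain ⟨N, hN⟩ := exists_nat_ge (C / (R / 16) + m * Real.log 2 / (ε₁ / 4) +
    Real.log 2 / (θ₁ / 4) + 1)
  have hN1 : 0 ≤ C / (R / 16) := by positivity
  have hN2 : 0 ≤ m * Real.log 2 / (ε₁ / 4) := by positivity
  have hN3 : 0 ≤ Real.log 2 / (θ₁ / 4) := by positivity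
  have hNr : (1 : ℝ) ≤ N := by linarith
  have hNn : 1 ≤ N := by exact_mod_cast hNr
  have hNC : C ≤ R / 16 * N := by
    have h1 : C / (R / 16) ≤ N := by linarith
    rw [div_le_iff₀ (by positivity)] at h1
    linarith
  have hNm : m * Real.log 2 ≤ ε₁ / 4 * N := by
    have h1 : m * Real.log 2 / (ε₁ / 4) ≤ N := by linarith
    rw [div_le_iff₀ (by positivity)] at h1
    linarith
  have hNt : Real.log 2 ≤ θ₁ / 4 * N := by
    have h1 : Real.log 2 / (θ₁ / 4) ≤ N := by linarith
    rw [div_le_iff₀ (by positivity)] at h1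
    linarith
  -- the stickiness
  obtain ⟨ε, hε0, hεN, hCε⟩ : ∃ ε : ℝ, 0 < ε ∧ ε * N ≤ ε₁ / 4 ∧ C * (ε * N) ≤ R / 16 := by
    refine ⟨min (ε₁ / 4) (R / 16 / (C + 1)) / N, by positivity, ?_, ?_⟩
    · rw [div_mul_cancel₀ _ (by positivity)]
      exact min_le_left _ _
    · rw [div_mul_cancel₀ _ (by positivity)]
      exact (mul_le_mul_of_nonneg_left (min_le_right _ _) hC0).trans
        (frac_small C (R / 16) hC0 (by positivity))
  -- the deficit of the time
  obtain ⟨θ, hθ0, t1, t2, t3, t4⟩ : ∃ θ : ℝ, 0 < θ ∧ C * (θ * N) ≤ θ₁ ∧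
      (N + 1) * (C * θ) ≤ θ₁ / 2 ∧ C * θ ≤ η ∧ C * (θ * N) ≤ R / 16 := by
    refine ⟨min (min (θ₁ / 2) η) (R / 16) / (C + 1) / (N + 1), by positivity, ?_, ?_, ?_, ?_⟩
    all_goals
      set q : ℝ := min (min (θ₁ / 2) η) (R / 16) with hq
      have hq0 : 0 < q := by positivity
      have q1 : q ≤ θ₁ / 2 := (min_le_left _ _).trans (min_le_left _ _)
      have q2 : q ≤ η := (min_le_left _ _).trans (min_le_right _ _)
      have q3 : q ≤ R / 16 := min_le_right _ _
      have q4 : C * (q / (C + 1)) ≤ q := frac_small C q hC0 hq0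
      have q5 : q / (C + 1) / (N + 1) * N ≤ q / (C + 1) := by
        rw [div_mul_eq_mul_div, div_le_iff₀ (by positivity)]
        exact mul_le_mul_of_nonneg_left (by linarith) (by positivity)
      have q6 : C * (q / (C + 1) / (N + 1) * N) ≤ q :=
        (mul_le_mul_of_nonneg_left q5 hC0).trans q4
      have q7 : q / (C + 1) / (N + 1) ≤ q / (C + 1) := div_le_self (by positivity) (by linarith)
      have q8 : C * (q / (C + 1) / (N + 1)) ≤ q :=
        (mul_le_mul_of_nonneg_left q7 hC0).trans q4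
    · linarith
    · have q9 : ((N : ℝ) + 1) * (C * (q / (C + 1) / (N + 1))) = C * (q / (C + 1)) := by
        field_simp
      linarith
    · linarith
    · linarith
  -- the number of scales
  obtain ⟨kA, hkA⟩ := log_small C (R / 16) N hC0 (by positivity) hNn
  obtain ⟨kB, hkB⟩ := exists_nat_ge (Real.log 2 / (θ * N))
  obtain ⟨kC, hkC⟩ := exists_nat_ge (2 * cc m / (ε₁ / 4 * N))
  obtain ⟨J₂, hJ₂⟩ := hRD m a R (η / 4) ε θ N ha.le (by positivity) hε0 hθ0 hNn
  refine hbelow (R - η / 4) (by linarith) ⟨ε / 2, by positivity, θ / 2, by positivity,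
    max J₂ (N * (k₁ + J₁ + kA + kB + kC + 1)), ?_⟩
  intro J hJ F hT hS
  by_contra hF
  rw [not_le] at hF
  obtain ⟨G, hG1, hG2, hG3⟩ := hJ₂ J ((le_max_left _ _).trans hJ) F hT hS hF
  have hk : k₁ + J₁ + kA + kB + kC + 1 ≤ J / N := by
    rw [Nat.le_div_iff_mul_le (by omega), mul_comm]
    exact (le_max_right _ _).trans hJ
  revert G hG1 hG2 hG3
  generalize J / N = k at hk
  intro G hG1 hG2 hG3
  have hkr : (1 : ℝ) ≤ k := by exact_mod_cast (by omega : 1 ≤ k)
  have hk0 : (0 : ℝ) < k := by linarith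
  have hNk : k ≤ N * k := Nat.le_mul_of_pos_left k (by omega)
  push_cast at hG1 hG3
  have e1 : Real.log 2 ≤ θ * (N * k) := by
    have h1 : Real.log 2 / (θ * N) ≤ k := hkB.trans (by exact_mod_cast (by omega : kB ≤ k))
    rw [div_le_iff₀ (by positivity)] at h1
    linarith
  have e2 : 2 * cc m ≤ ε₁ / 4 * (N * k) := by
    have h1 : 2 * cc m / (ε₁ / 4 * N) ≤ k := hkC.trans (by exact_mod_cast (by omega : kC ≤ k))
    rw [div_le_iff₀ (by positivity)] at h1
    linarith
  have e3 := hkA k (by omega)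
  have e4 := mul_le_mul_of_nonneg_right hCη hk0.le
  have e5 := mul_le_mul_of_nonneg_right hCε hk0.le
  have e6 : C * (k / N) ≤ R / 16 * k := by
    rw [mul_div_assoc', div_le_iff₀ (by positivity)]
    have := mul_le_mul_of_nonneg_right hNC hk0.le
    linarith
  have e7 := mul_le_mul_of_nonneg_right t4 hk0.le
  have e8 := mul_le_mul_of_nonneg_right t1 hk0.le
  have e9 := mul_le_mul_of_nonneg_right hNm hk0.le
  have e10 := mul_le_mul_of_nonneg_right hNt hk0.le
  have hNk0 : (0 : ℝ) < N * k := by positivity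
  have e11 := mul_le_mul_of_nonneg_right t2 hNk0.le
  have e12 := mul_le_mul_of_nonneg_right t3 hNk0.le
  have e13 := mul_le_mul_of_nonneg_right hεN hk0.le
  have e14 : ε * (N * k) ≤ ε₁ / 4 * (N * k) := by
    refine mul_le_mul_of_nonneg_right ?_ hNk0.le
    have : ε * 1 ≤ ε * N := mul_le_mul_of_nonneg_left hNr hε0.le
    linarith
  have e15 : 0 < ε₁ * (N * k) := by positivity
  have e16 : 0 < θ₁ * (N * k) := by positivity
  have hfin := hC R η ε ε₁ θ₁ (θ * (N * k)) N k (by omega) hNn hpos.le hη0 hε0 e1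
    (hJ₁ k (by omega)) (hJ₁ (N * k) (by omega)) (by linarith) (by linarith) (by linarith)
    (by linarith) (by linarith) G hG1 hG2 (by linarith)
  have e17 : a * (R / (4 * a)) * k = R / 4 * k := by
    field_simp
  rw [e17] at hfin
  have e18 : 0 < R * k := by positivity
  linarith

end Pool.STE
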