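import Pool.Agent.H90.STE.Stmts2

/-!
# Sticky Kakeya with shadings: module CE (from the case of small covering numbers)
-/

set_option autoImplicit false

namespace Pool.STE

open Finset Real MeasureTheory
open scoped RealInnerProductSpace ENNReal
open Pool.Agent.H49.Ent Pool.Agent.H32.Dense Pool.STK Pool.KA
open Pool.Agent.H53.Kak (E tube)

theorem ce (hCEA : CEAStmt) (hTCD : TCDStmt) : CEStmt := by
  classical
  intro d hd ε L c₁ c₂ hε hL hc₁ hc₂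
  obtain ⟨M, hM, θ, C, hθ, hC, h⟩ := hCEA d hd ε L c₁ c₂ hε hL hc₁ hc₂
  obtain ⟨C₇, hC₇, hT⟩ := hTCD d
  have hd0 : (0 : ℝ) ≤ d := Nat.cast_nonneg d
  refine ⟨M, hM, θ, d / θ, max C C₇, hθ, by positivity, hC.trans (le_max_left _ _), ?_⟩
  intro δ J hδ hδ1 hJ1 hJ2 ι _ _ c e k g q hcell hsep A hcov lam S hlam hS V hV
  have hδε : 1 ≤ δ ^ (-ε) := by
    rw [Real.rpow_neg hδ.le]
    exact (one_le_inv₀ (Real.rpow_pos_of_pos hδ _)).mpr (Real.rpow_le_one hδ.le hδ1.le hε.le)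
  have hA1 : ∀ r ∈ Finset.Ico 1 M, 1 ≤ A r := by
    intro r hr
    rw [Finset.mem_Ico] at hr
    exact (hcov r hr.1 hr.2).1
  have hPn : 0 < ∏ r ∈ Finset.Ico 1 M, A r :=
    Finset.prod_pos fun r hr => hA1 r hr
  have hPr : (1 : ℝ) ≤ ∏ r ∈ Finset.Ico 1 M, (A r : ℝ) := by
    have : ((1 : ℕ) : ℝ) ≤ ((∏ r ∈ Finset.Ico 1 M, A r : ℕ) : ℝ) := by exact_mod_cast Nat.succ_le_of_lt hPn
    push_cast at this
    exact this
  have hK0 : 0 ≤ (d : ℝ) / θ := by positivity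
  have hPK : 1 ≤ (∏ r ∈ Finset.Ico 1 M, (A r : ℝ)) ^ ((d : ℝ) / θ) := Real.one_le_rpow hPr hK0
  have hV0 : (0 : ℝ) ≤ V.card := Nat.cast_nonneg _
  by_cases hsm : ∀ r : ℕ, 1 ≤ r → r < M → (A r : ℝ) ≤ δ ^ (-θ)
  · refine (h δ J hδ hδ1 hJ1 hJ2 ι c e k g q hcell hsep A hcov hsm lam S hlam hS V hV).trans ?_
    refine mul_le_mul_of_nonneg_right ?_ hV0
    have h1 : C * δ ^ (-ε) ≤ max C C₇ * δ ^ (-ε) :=
      mul_le_mul_of_nonneg_right (le_max_left _ _) (by positivity)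
    have h2 : 0 ≤ max C C₇ * δ ^ (-ε) := by positivity
    calc C * δ ^ (-ε) ≤ max C C₇ * δ ^ (-ε) * 1 := by linarith
      _ ≤ max C C₇ * δ ^ (-ε) * (∏ r ∈ Finset.Ico 1 M, (A r : ℝ)) ^ ((d : ℝ) / θ) :=
        mul_le_mul_of_nonneg_left hPK h2
  · push Not at hsm
    obtain ⟨r, hr1, hr2, hr3⟩ := hsm
    have hrP : (A r : ℝ) ≤ ∏ r ∈ Finset.Ico 1 M, (A r : ℝ) := by
      have h1 : A r ≤ ∏ r ∈ Finset.Ico 1 M, A r :=
        Nat.le_of_dvd hPn (Finset.dvd_prod_of_mem A (Finset.mem_Ico.mpr ⟨hr1, hr2⟩))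
      have h2 : (A r : ℝ) ≤ ((∏ r ∈ Finset.Ico 1 M, A r : ℕ) : ℝ) := by exact_mod_cast h1
      push_cast at h2
      exact h2
    have hPd : (δ ^ d)⁻¹ ≤ (∏ r ∈ Finset.Ico 1 M, (A r : ℝ)) ^ ((d : ℝ) / θ) := by
      have h1 : (δ ^ (-θ)) ^ ((d : ℝ) / θ) ≤
          (∏ r ∈ Finset.Ico 1 M, (A r : ℝ)) ^ ((d : ℝ) / θ) :=
        Real.rpow_le_rpow (by positivity) (hr3.le.trans hrP) hK0
      have h2 : (δ ^ (-θ)) ^ ((d : ℝ) / θ) = (δ ^ d)⁻¹ := by
        rw [← Real.rpow_mul hδ.le]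
        have h3 : -θ * ((d : ℝ) / θ) = -(d : ℝ) := by field_simp
        rw [h3, Real.rpow_neg hδ.le, Real.rpow_natCast]
      rwa [h2] at h1
    have hcard := hT δ hδ hδ1 ι e hcell.unit hsep
    obtain ⟨i₀⟩ := ‹Nonempty ι›
    have hSV : lam * 2 ^ J ≤ V.card := by
      refine (hS i₀).2.trans ?_
      have h1 : (S i₀).card ≤ V.card := by
        refine Finset.card_le_card_of_injOn
          (fun t => (t, fl J (pt (uT k g c e) (dT k e) ((t : ℝ) / 2 ^ J) i₀))) ?_ ?_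
        · intro t ht
          exact hV i₀ t ht
        · intro t _ t' _ htt
          exact congrArg Prod.fst htt
      exact_mod_cast h1
    have hlam0 : 0 ≤ lam * 2 ^ J := by
      have : 0 ≤ lam := (Real.rpow_pos_of_pos hδ _).le.trans hlam
      positivity
    have h4 : 0 ≤ C₇ * (δ ^ d)⁻¹ := by positivity
    refine (mul_le_mul hcard hSV hlam0 h4).trans (mul_le_mul_of_nonneg_right ?_ hV0)
    have h5 : C₇ ≤ max C C₇ * δ ^ (-ε) := by
      have h6 : C₇ ≤ max C C₇ := le_max_right _ _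
      have h7 : 0 ≤ max C C₇ := hC₇.le.trans h6
      nlinarith
    exact mul_le_mul h5 hPd (by positivity) (by positivity)

end Pool.STE
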