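import Pool.Agent.H90.STE.Stmts

/-!
# Sticky families with a random time: module SQ (small doubling at the vertices of a cube of times)
-/

set_option autoImplicit false

namespace Pool.STE

open Finset Real
open Pool.Agent.H49.Ent Pool.Agent.H32.Dense Pool.STK Pool.KA

namespace SqAux

lemma pr2_law {Ω : Type} [Fintype Ω] {p : Ω → ℝ} (hp : IsLaw p) : IsLaw (pr2 p p) := by
  refine ⟨fun w => mul_nonneg (hp.nonneg _) (hp.nonneg _), ?_⟩
  unfold pr2
  rw [Fintype.sum_prod_type]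
  simp_rw [← Finset.mul_sum, hp.sum_one, mul_one, hp.sum_one]

lemma dbl_const {Ω : Type} [Fintype Ω] {p : Ω → ℝ} (hp : IsLaw p) :
    dbl p (fun _ : Ω => ()) = pr2 p p := by
  classical
  funext w
  unfold dbl glue pr2 law
  simp [hp.sum_one]

/-- The entropy of a difference of independent copies is at least the entropy. -/
lemma diff_nonneg {Ω : Type} [Fintype Ω] {m : ℕ} {p : Ω → ℝ} (hp : IsLaw p)
    (X : Ω → Fin m → ℤ) : H p X ≤ H (pr2 p p) (fun w => X w.2 - X w.1) := by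
  have h1 := CH_dbl_2 (b := fun _ : Ω => ()) hp.nonneg X X
  rw [dbl_const hp] at h1
  have hq := pr2_law hp
  have h2 : CH p X (fun _ => ()) ≤ H (pr2 p p) (fun w => X w.2 - X w.1) := by
    rw [← h1]
    have h3 := CH_mono_left hq.nonneg (X' := fun w : Ω × Ω => X w.2 - X w.1)
      (X := fun w : Ω × Ω => X w.2) (W := fun w : Ω × Ω => ((), X w.1)) (by
        intro w w' _ _ e
        simp only [Prod.mk.injEq] at e
        obtain ⟨e1, -, e2⟩ := e
        rw [e2] at e1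
        exact sub_left_injective e1)
    refine h3.trans ?_
    have h4 := CH_mono_cond hq.nonneg (X := fun w : Ω × Ω => X w.2 - X w.1)
      (W' := fun w : Ω × Ω => ((), X w.1)) (W := fun _ : Ω × Ω => ()) (fun _ _ _ _ _ => rfl)
    refine h4.trans ?_
    have h5 : CH (pr2 p p) (fun w : Ω × Ω => X w.2 - X w.1) (fun _ : Ω × Ω => ()) =
      H (pr2 p p) (fun w => (X w.2 - X w.1, ())) - H (pr2 p p) (fun _ : Ω × Ω => ()) := rfl
    rw [h5, H_const hq.sum_one]
    have h6 : H (pr2 p p) (fun w : Ω × Ω => (X w.2 - X w.1, ())) ≤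
        H (pr2 p p) (fun w => X w.2 - X w.1) :=
      H_mono hq.nonneg (fun _ _ _ _ e => Prod.ext e rfl)
    linarith
  refine le_trans ?_ h2
  have h5 : CH p X (fun _ : Ω => ()) =
    H p (fun w => (X w, ())) - H p (fun _ : Ω => ()) := rfl
  rw [h5, H_const hp.sum_one]
  have h6 : H p X ≤ H p (fun w : Ω => (X w, ())) :=
    H_mono hp.nonneg (fun _ _ _ _ e => (Prod.ext_iff.mp e).1)
  linarith

/-- The entropy of the rounded direction. -/
lemma H_Fl_le {Ω : Type} [Fintype Ω] {m : ℕ} {p : Ω → ℝ} (hp : IsLaw p) (d : Ω → Fin m → ℝ)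
    (hd : ∀ ω i, 0 ≤ d ω i ∧ d ω i < 1) (k : ℕ) : H p (Fl d k) ≤ m * (k * Real.log 2) := by
  have h1 := H_le_log_card hp.nonneg hp.sum_one (Fl d k)
    (Fintype.piFinset fun _ : Fin m => Finset.Ico (0 : ℤ) (2 ^ k)) (by
      intro ω _
      rw [Fintype.mem_piFinset]
      intro i
      rw [Finset.mem_Ico]
      have h2 : (0 : ℝ) < 2 ^ k := by positivity
      unfold Fl fl rd
      constructor
      · exact Int.floor_nonneg.mpr (mul_nonneg h2.le (hd ω i).1)
      · rw [Int.floor_lt]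
        push_cast
        have := (hd ω i).2
        nlinarith)
  refine h1.trans (le_of_eq ?_)
  rw [Fintype.card_piFinset]
  simp only [Int.card_Ico, sub_zero, Finset.prod_const, Finset.card_univ, Fintype.card_fin]
  have h3 : ((2 : ℤ) ^ k).toNat = 2 ^ k := by
    have : ((2 : ℤ) ^ k) = ((2 ^ k : ℕ) : ℤ) := by push_cast; rfl
    rw [this, Int.toNat_natCast]
  rw [h3]
  push_cast
  rw [Real.log_pow, Real.log_pow]

lemma KQ_nonneg (n : ℕ) : 0 ≤ KQ n := by
  unfold KQ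
  have h1 : n.choose (n / 2) ≤ 2 ^ n := by
    have h2 := Nat.sum_range_choose n
    rw [← h2]
    exact Finset.single_le_sum (f := fun i => n.choose i) (fun _ _ => Nat.zero_le _)
      (Finset.mem_range.mpr (by omega))
  have h3 : ((n.choose (n / 2) : ℕ) : ℝ) ≤ ((2 ^ n : ℕ) : ℝ) := by exact_mod_cast h1
  push_cast at h3
  linarith

lemma KQ_le (n : ℕ) : KQ n ≤ 2 ^ n := by
  unfold KQ
  have : (0 : ℝ) ≤ (n.choose (n / 2) : ℝ) := Nat.cast_nonneg _
  linarith

end SqAux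

open SqAux

theorem sq (hSI : SIStmt) (hCM : CMStmt) : SQStmt := by
  intro m n ρ hn hρ
  have hm : (0 : ℝ) ≤ m := Nat.cast_nonneg m
  have hn0 : (0 : ℝ) ≤ n := Nat.cast_nonneg n
  have hT1 : (1 : ℝ) ≤ 2 ^ n := one_le_pow₀ (by norm_num)
  obtain ⟨C, hC0, hC⟩ := hCM m n
  obtain ⟨S, hS⟩ := exists_nat_ge (4 * (2 ^ n * (m * (n + 1))) / ρ + 1)
  have hS1' : (1 : ℝ) ≤ S := by
    have : 0 ≤ 4 * ((2 : ℝ) ^ n * (m * (n + 1))) / ρ := by positivity
    linarith
  have hS1 : 1 ≤ S := by exact_mod_cast hS1'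
  have hSm : 4 * ((2 : ℝ) ^ n * (m * (n + 1))) ≤ ρ * S := by
    have : 4 * ((2 : ℝ) ^ n * (m * (n + 1))) / ρ ≤ S := by linarith
    rw [div_le_iff₀ hρ] at this
    linarith
  obtain ⟨C', hC'0, hC'⟩ := hSI m n S hn hS1
  set K : ℝ := (2 ^ n) ^ S with hK
  have hK0 : 0 ≤ K := by positivity
  have hlogK : 0 ≤ Real.log (2 * K + 1) := Real.log_nonneg (by linarith)
  set B : ℝ := 2 ^ n * C + 2 ^ n * (C * (1 + 2 * K)) + C' + ρ / 4 +
    2 ^ n * (m * (n + 1) * Real.log (2 * K + 1) + 1) with hB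
  obtain ⟨k₁, hk₁⟩ := exists_nat_ge (2 * B / ρ)
  refine ⟨2 * K + 2 ^ n * C + C' + 2 ^ n * m, by positivity, k₁, ?_⟩
  intro k hk Ω _ p u d hp hu hd t₀ h lam ht0 ht1 hh hlam hz hnz
  set C₁ : ℝ := 2 * K + 2 ^ n * C + C' + 2 ^ n * m with hC₁
  have hC₁0 : 0 ≤ C₁ := by positivity
  have hk0 : (0 : ℝ) ≤ k := Nat.cast_nonneg k
  have hkk : 2 * B ≤ ρ * k := by
    have h1 : (k₁ : ℝ) ≤ k := by exact_mod_cast hk
    have h2 : 2 * B / ρ ≤ k := hk₁.trans h1
    rw [div_le_iff₀ hρ] at h2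
    linarith
  have hlamS : ∀ i, lam i ≤ ∑ i, lam i := fun i =>
    Finset.single_le_sum (f := lam) (fun j _ => hlam j) (Finset.mem_univ i)
  have hlam0 : 0 ≤ ∑ i, lam i := Finset.sum_nonneg fun i _ => hlam i
  have hX0 : ∀ w : Finset (Fin n), 0 ≤ H p (Xp u d (t₀ + ∑ i ∈ w, h i) k) := fun w =>
    H_nonneg hp.nonneg hp.sum_one _
  have hθ0 : ∀ w : Finset (Fin n), 0 ≤ H (pr2 p p) (fun v => Xp u d (t₀ + ∑ i ∈ w, h i) k v.2 -
      Xp u d (t₀ + ∑ i ∈ w, h i) k v.1) - H p (Xp u d (t₀ + ∑ i ∈ w, h i) k) := fun w =>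
    sub_nonneg.mpr (diff_nonneg hp _)
  have hKQ0 := KQ_nonneg n
  have hKQ1 := KQ_le n
  by_cases hex : ∃ i, h i = 0
  · obtain ⟨i, hi⟩ := hex
    have h1 := H_Fl_le hp d hd k
    have h2 := hz i hi
    have h3 := hlamS i
    have h4 : 0 ≤ H p (Fl d k) := H_nonneg hp.nonneg hp.sum_one _
    have h5 : KQ n * H p (Fl d k) ≤ 2 ^ n * (m * ∑ i, lam i) := by
      refine mul_le_mul hKQ1 ?_ h4 (by positivity)
      refine h1.trans (mul_le_mul_of_nonneg_left ?_ hm)
      linarith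
    have h6 : 0 ≤ ∑ w : Finset (Fin n), (H p (Xp u d (t₀ + ∑ i ∈ w, h i) k) + C₁ *
        (H (pr2 p p) (fun v => Xp u d (t₀ + ∑ i ∈ w, h i) k v.2 -
          Xp u d (t₀ + ∑ i ∈ w, h i) k v.1) - H p (Xp u d (t₀ + ∑ i ∈ w, h i) k))) :=
      Finset.sum_nonneg fun w _ => add_nonneg (hX0 w) (mul_nonneg hC₁0 (hθ0 w))
    have h7 : 2 ^ n * (m * ∑ i, lam i) ≤ C₁ * ∑ i, lam i := by
      rw [← mul_assoc]
      refine mul_le_mul_of_nonneg_right ?_ hlam0
      rw [hC₁]
      have : 0 ≤ 2 * K + 2 ^ n * C + C' := by positivity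
      linarith
    have h8 : 0 ≤ ρ * k := by positivity
    linarith
  · push Not at hex
    have hne : ∀ i, h i ≠ 0 ∧ |h i| ≤ 1 := fun i => ⟨hex i, hh i⟩
    obtain ⟨l, y, hl1, hl2, hl3, hl4⟩ := hC Ω p u d hp hu hd k t₀ h ⟨0, hn⟩ ht0 ht1 hne
    have h1 := hC' h ⟨0, hn⟩ hne Ω p l y (2 ^ (k + 1)) hp (one_le_pow₀ (by norm_num)) hl1 hl2
    -- the error of the integer inequality
    set E : ℝ := (m * (n + 1) * Real.log (2 * (K * 2 ^ (k + 1)) + 1) + 1) / S with hE
    have hEle : (2 ^ n - 1) * E ≤ ρ / 4 * (k + 1) +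
        2 ^ n * (m * (n + 1) * Real.log (2 * K + 1) + 1) := by
      have hpw : (1 : ℝ) ≤ 2 ^ (k + 1) := one_le_pow₀ (by norm_num)
      have h2 : Real.log (2 * (K * 2 ^ (k + 1)) + 1) ≤ (k + 1) + Real.log (2 * K + 1) := by
        have h3 : 2 * (K * 2 ^ (k + 1)) + 1 ≤ 2 ^ (k + 1) * (2 * K + 1) := by
          nlinarith
        have h4 : (0 : ℝ) < 2 * (K * 2 ^ (k + 1)) + 1 := by positivity
        refine (Real.log_le_log h4 h3).trans ?_
        rw [Real.log_mul (by positivity) (by positivity), Real.log_pow]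
        have h5 : Real.log 2 ≤ 1 := by
          have := Real.log_two_lt_d9
          linarith
        push_cast
        nlinarith
      have hmn : (0 : ℝ) ≤ m * (n + 1) := by positivity
      have h3 : (m : ℝ) * (n + 1) * Real.log (2 * (K * 2 ^ (k + 1)) + 1) + 1 ≤
          m * (n + 1) * (k + 1) + (m * (n + 1) * Real.log (2 * K + 1) + 1) := by
        have := mul_le_mul_of_nonneg_left h2 hmn
        linarith
      have hSp : (0 : ℝ) < S := by linarith
      have h4 : E ≤ m * (n + 1) * (k + 1) / S + (m * (n + 1) * Real.log (2 * K + 1) + 1) := by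
        rw [hE]
        refine (div_le_div_of_nonneg_right h3 hSp.le).trans ?_
        rw [add_div]
        have h5 : (m * (n + 1) * Real.log (2 * K + 1) + 1) / S ≤
            m * (n + 1) * Real.log (2 * K + 1) + 1 := div_le_self (by positivity) hS1'
        linarith
      have h5 : 0 ≤ m * (n + 1) * (k + 1) / S + (m * (n + 1) * Real.log (2 * K + 1) + 1) := by
        positivity
      have h6 : (2 ^ n - 1) * E ≤
          2 ^ n * (m * (n + 1) * (k + 1) / S + (m * (n + 1) * Real.log (2 * K + 1) + 1)) := by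
        refine (mul_le_mul_of_nonneg_left h4 (by linarith)).trans
          (mul_le_mul_of_nonneg_right (by linarith) h5)
      have h7 : 2 ^ n * ((m : ℝ) * (n + 1) * (k + 1) / S) ≤ ρ / 4 * (k + 1) := by
        have h8 : 2 ^ n * ((m : ℝ) * (n + 1) * (k + 1) / S) =
            (2 ^ n * (m * (n + 1))) * (k + 1) / S := by ring
        rw [h8, div_le_iff₀ hSp]
        have h9 := mul_le_mul_of_nonneg_right hSm (show (0 : ℝ) ≤ (k : ℝ) + 1 by positivity)
        linarith
      linarith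
    -- the vertices
    have h3 : ∑ w : Finset (Fin n), (H p (fun ω => evq w (l ω)) + K *
        (2 * (H (pr2 p p) (fun v => evq w (l v.2) - evq w (l v.1)) -
          H p (fun ω => evq w (l ω))))) ≤
        ∑ w : Finset (Fin n), ((H p (Xp u d (t₀ + ∑ i ∈ w, h i) k) + C₁ *
        (H (pr2 p p) (fun v => Xp u d (t₀ + ∑ i ∈ w, h i) k v.2 -
          Xp u d (t₀ + ∑ i ∈ w, h i) k v.1) - H p (Xp u d (t₀ + ∑ i ∈ w, h i) k))) +
          C * (1 + 2 * K)) := by
      refine Finset.sum_le_sum fun w _ => ?_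
      obtain ⟨h4, h5⟩ := hl4 w
      have h6 := mul_le_mul_of_nonneg_left h5 (by positivity : 0 ≤ 2 * K)
      have h7 : 2 * K * (H (pr2 p p) (fun v => Xp u d (t₀ + ∑ i ∈ w, h i) k v.2 -
          Xp u d (t₀ + ∑ i ∈ w, h i) k v.1) - H p (Xp u d (t₀ + ∑ i ∈ w, h i) k)) ≤
          C₁ * (H (pr2 p p) (fun v => Xp u d (t₀ + ∑ i ∈ w, h i) k v.2 -
          Xp u d (t₀ + ∑ i ∈ w, h i) k v.1) - H p (Xp u d (t₀ + ∑ i ∈ w, h i) k)) := by
        refine mul_le_mul_of_nonneg_right ?_ (hθ0 w)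
        rw [hC₁]
        have : 0 ≤ 2 ^ n * C + C' + 2 ^ n * m := by positivity
        linarith
      linarith
    have h3' : ∑ _w : Finset (Fin n), C * (1 + 2 * K) = 2 ^ n * (C * (1 + 2 * K)) := by
      rw [Finset.sum_const, Finset.card_univ, Fintype.card_finset, Fintype.card_fin,
        nsmul_eq_mul]
      push_cast
      ring
    replace h3 := h3.trans_eq Finset.sum_add_distrib
    rw [h3'] at h3
    -- the direction
    have h4 : KQ n * H p (Fl d k) ≤ KQ n * H p (fun ω => (l ω).2 ⟨0, hn⟩) +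
        2 ^ n * (C * (1 + ∑ i, lam i)) := by
      have h5 := mul_le_mul_of_nonneg_left hl3 hKQ0
      have h6 : C * (1 + Real.log (1 / |h ⟨0, hn⟩|)) ≤ C * (1 + ∑ i, lam i) := by
        refine mul_le_mul_of_nonneg_left ?_ hC0
        have := hnz ⟨0, hn⟩ (hex _)
        have := hlamS ⟨0, hn⟩
        linarith
      have h7 : KQ n * (C * (1 + Real.log (1 / |h ⟨0, hn⟩|))) ≤
          2 ^ n * (C * (1 + ∑ i, lam i)) := by
        refine (mul_le_mul_of_nonneg_left h6 hKQ0).trans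
          (mul_le_mul_of_nonneg_right hKQ1 (by positivity))
      rw [mul_add] at h5
      linarith
    have h5 : C' * (1 + ∑ i, Real.log (1 / |h i|)) ≤ C' * (1 + ∑ i, lam i) := by
      refine mul_le_mul_of_nonneg_left ?_ hC'0
      have := Finset.sum_le_sum fun (i : Fin n) (_ : i ∈ Finset.univ) => hnz i (hex i)
      linarith
    have h6 : (2 ^ n * C + C') * ∑ i, lam i ≤ C₁ * ∑ i, lam i := by
      refine mul_le_mul_of_nonneg_right ?_ hlam0
      rw [hC₁]
      have : 0 ≤ 2 * K + 2 ^ n * m := by positivity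
      linarith
    have h7 : ρ * k / 2 = ρ / 4 * k + ρ / 4 * k := by ring
    have h8 : 0 ≤ ρ / 4 * k := by positivity
    rw [hB] at hkk
    linarith

end Pool.STE
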